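import Mathlib

set_option autoImplicit false

namespace Pool.Agent.Results.MP_e534f3_co.NonMovableExpanders

open Finset

/-- The injective realisations of `(G, lam)` in the Euclidean plane `ℂ`. -/
def InjRealisations {V : Type} (G : SimpleGraph V) (lam : Sym2 V → ℝ) : Set (V → ℂ) :=
  {ρ | Function.Injective ρ ∧ ∀ u v, G.Adj u v → ‖ρ u - ρ v‖ = lam s(u, v)}

/-- The equivalence class of `ρ` under the direct isometries `z ↦ a z + b`, `|a| = 1`, of `ℂ`. -/
def classOf {V : Type} (ρ : V → ℂ) : Set (V → ℂ) :=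
  {ρ' | ∃ a b : ℂ, ‖a‖ = 1 ∧ ∀ v, ρ' v = a * ρ v + b}

/-- `G` is movable: some positive edge labelling has infinitely many classes of injective
realisations. -/
def Movable {V : Type} (G : SimpleGraph V) : Prop :=
  ∃ lam : Sym2 V → ℝ, (∀ e ∈ G.edgeSet, 0 < lam e) ∧
    (classOf '' InjRealisations G lam).Infinite

/-- The edges of `G` with exactly one endpoint in `S`. -/
def edgeBoundary {V : Type} (G : SimpleGraph V) (S : Finset V) : Set (Sym2 V) :=
  {e | e ∈ G.edgeSet ∧ ∃ u ∈ S, ∃ v, v ∉ S ∧ e = s(u, v)}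

/-- A constant degree `d` expander sequence. -/
structure IsExpanderSeq (d : ℕ) (V : ℕ → Type) [∀ n, Fintype (V n)]
    (G : ∀ n, SimpleGraph (V n)) : Prop where
  connected : ∀ n, (G n).Connected
  regular : ∀ n, ∀ v : V n, ((G n).neighborSet v).ncard = d
  card_tendsto : Filter.Tendsto (fun n => Fintype.card (V n)) Filter.atTop Filter.atTop
  expansion : ∃ ε : ℝ, 0 < ε ∧ ∀ n, ∀ S : Finset (V n), S.Nonempty →
    2 * S.card ≤ Fintype.card (V n) → ε * S.card ≤ (edgeBoundary (G n) S).ncard

/-- number of permutations mapping S into T -/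
def cST {n : ℕ} (S T : Finset (Fin n)) : ℕ :=
  (univ.filter (fun π : Equiv.Perm (Fin n) => ∀ x ∈ S, π x ∈ T)).card

lemma cST_eq {n : ℕ} (S S' T : Finset (Fin n)) (h : S.card = S'.card) : cST S T = cST S' T := by
  have hc : Fintype.card {x // x ∈ S'} = Fintype.card {x // x ∈ S} := by
    simp [h]
  let e : {x // x ∈ S'} ≃ {x // x ∈ S} := Fintype.equivOfCardEq hc
  let σ : Equiv.Perm (Fin n) := e.extendSubtype
  have hσ : ∀ x, x ∈ S' ↔ σ x ∈ S := by
    intro x
    constructor
    · intro hx; exact e.extendSubtype_mem x hx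
    · intro hx
      by_contra hx'
      exact e.extendSubtype_not_mem x hx' hx
  unfold cST
  apply Finset.card_bij (fun π _ => π * σ)
  · intro π hπ
    simp only [mem_filter, mem_univ, true_and] at hπ ⊢
    intro x hx
    exact hπ _ ((hσ x).1 hx)
  · intro a _ b _ hab
    exact mul_right_cancel hab
  · intro π hπ
    refine ⟨π * σ⁻¹, ?_, by simp⟩
    simp only [mem_filter, mem_univ, true_and] at hπ ⊢
    intro x hx
    apply hπ
    rw [hσ]
    simpa using hx

lemma cST_mul_choose {n : ℕ} (S T : Finset (Fin n)) :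
    n.choose S.card * cST S T = n.factorial * T.card.choose S.card := by
  have h1 : ∑ S' ∈ powersetCard S.card (univ : Finset (Fin n)), cST S' T
      = n.choose S.card * cST S T := by
    rw [sum_congr rfl (g := fun _ => cST S T)]
    · rw [sum_const, card_powersetCard, card_univ, Fintype.card_fin, smul_eq_mul]
    · intro S' hS'
      rw [mem_powersetCard] at hS'
      exact cST_eq _ _ _ hS'.2
  have h2 : ∑ S' ∈ powersetCard S.card (univ : Finset (Fin n)), cST S' T
      = ∑ π : Equiv.Perm (Fin n), T.card.choose S.card := by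
    unfold cST
    simp_rw [card_filter]
    rw [sum_comm]
    apply sum_congr rfl
    intro π _
    rw [← card_filter]
    have : (powersetCard S.card (univ : Finset (Fin n))).filter (fun S' => ∀ x ∈ S', π x ∈ T)
        = powersetCard S.card (T.map π.symm.toEmbedding) := by
      ext S'
      simp only [mem_filter, mem_powersetCard, subset_univ, true_and]
      constructor
      · rintro ⟨h3, h4⟩
        refine ⟨?_, h3⟩
        intro x hx
        rw [mem_map_equiv]
        simpa using h4 x hx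
      · rintro ⟨h3, h4⟩
        refine ⟨h4, ?_⟩
        intro x hx
        have := h3 hx
        rw [mem_map_equiv] at this
        simpa using this
    rw [this, card_powersetCard, card_map]
  rw [← h1, h2, sum_const, card_univ, Fintype.card_perm, Fintype.card_fin, smul_eq_mul]

lemma desc_bound (n t : ℕ) (htn : t ≤ n) (s : ℕ) :
    t.descFactorial s * n ^ s ≤ n.descFactorial s * t ^ s := by
  induction s with
  | zero => simp
  | succ s ih =>
    rw [Nat.descFactorial_succ, Nat.descFactorial_succ, pow_succ, pow_succ]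
    have h1 : (t - s) * n ≤ (n - s) * t := by
      rcases le_total s t with h | h
      · have h2 : s ≤ n := h.trans htn
        zify [h, h2]
        nlinarith
      · rw [Nat.sub_eq_zero_of_le h]; simp
    calc (t - s) * t.descFactorial s * (n ^ s * n)
        = (t.descFactorial s * n ^ s) * ((t - s) * n) := by ring
      _ ≤ (n.descFactorial s * t ^ s) * ((n - s) * t) := Nat.mul_le_mul ih h1
      _ = (n - s) * n.descFactorial s * (t ^ s * t) := by ring

lemma choose_bound (n t : ℕ) (htn : t ≤ n) (s : ℕ) :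
    t.choose s * n ^ s ≤ n.choose s * t ^ s := by
  have h := desc_bound n t htn s
  rw [Nat.descFactorial_eq_factorial_mul_choose, Nat.descFactorial_eq_factorial_mul_choose,
    mul_assoc, mul_assoc] at h
  exact Nat.le_of_mul_le_mul_left h (Nat.factorial_pos s)

lemma cST_bound {n : ℕ} (S T : Finset (Fin n)) : cST S T * n ^ S.card ≤ n.factorial * T.card ^ S.card := by
  have h1 := cST_mul_choose S T
  have hSn : S.card ≤ n := by simpa using card_le_univ S
  have hTn : T.card ≤ n := by simpa using card_le_univ T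
  have h2 := choose_bound n T.card hTn S.card
  have h3 : 0 < n.choose S.card := Nat.choose_pos hSn
  apply Nat.le_of_mul_le_mul_left _ h3
  calc n.choose S.card * (cST S T * n ^ S.card) = (n.choose S.card * cST S T) * n ^ S.card := by ring
    _ = n.factorial * (T.card.choose S.card * n ^ S.card) := by rw [h1]; ring
    _ ≤ n.factorial * (n.choose S.card * T.card ^ S.card) := Nat.mul_le_mul_left _ h2
    _ = n.choose S.card * (n.factorial * T.card ^ S.card) := by ring

lemma choose_exp (n s : ℕ) (hs : 1 ≤ s) : (n.choose s : ℝ) ≤ (Real.exp 1 * (n / s)) ^ s := by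
  have h1 : (n.choose s : ℝ) ≤ (n:ℝ) ^ s / s.factorial := Nat.choose_le_pow_div s n
  have hs0 : (0:ℝ) < s := by exact_mod_cast hs
  have h2 : (s:ℝ) ^ s / s.factorial ≤ Real.exp s := Real.pow_div_factorial_le_exp _ hs0.le s
  have hf : (0:ℝ) < s.factorial := by exact_mod_cast s.factorial_pos
  have h3 : (n:ℝ) ^ s / s.factorial = ((s:ℝ) ^ s / s.factorial) * ((n:ℝ) / s) ^ s := by
    rw [div_pow]
    field_simp
  calc (n.choose s : ℝ) ≤ ((s:ℝ) ^ s / s.factorial) * ((n:ℝ) / s) ^ s := by rw [← h3]; exact h1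
    _ ≤ Real.exp s * ((n:ℝ) / s) ^ s := mul_le_mul_of_nonneg_right h2 (by positivity)
    _ = (Real.exp 1 * (n / s)) ^ s := by
      rw [mul_pow, ← Real.exp_nat_mul, mul_one]

lemma term_bound (n s t m : ℕ) (hs : 1 ≤ s) (ht : t = 3 * s / 2) (hn : 2 * s ≤ n) (hm : 23 ≤ m) :
    (n.choose s : ℝ) * n.choose t * ((t:ℝ) / n) ^ (s * m) ≤ (1 / 4) ^ s := by
  have ht1 : 1 ≤ t := by omega
  have ht2 : 2 * t ≤ 3 * s := by omega
  have ht3 : t ≤ 2 * s := by omega
  have hs0 : (0:ℝ) < s := by exact_mod_cast hs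
  have ht0 : (0:ℝ) < t := by exact_mod_cast ht1
  have hn0 : (0:ℝ) < n := by
    have : 0 < n := by omega
    exact_mod_cast this
  have ht2' : 2 * (t:ℝ) ≤ 3 * s := by exact_mod_cast ht2
  have hn' : 2 * (s:ℝ) ≤ n := by exact_mod_cast hn
  set x : ℝ := (t:ℝ) / n with hx
  have hx0 : 0 < x := by positivity
  have hx1 : x ≤ 3 / 4 := by
    rw [hx, div_le_iff₀ hn0]; linarith
  set e := Real.exp 1 with he
  have he1 : 1 ≤ e := by
    rw [he]; exact Real.one_le_exp (by norm_num)
  have he0 : 0 < e := by linarith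
  have he3 : e ^ 3 ≤ 21 := by
    have h1 : e < 2.7182818286 := Real.exp_one_lt_d9
    have h2 : e ^ 3 ≤ 2.7182818286 ^ 3 := pow_le_pow_left₀ he0.le h1.le 3
    refine h2.trans (by norm_num)
  have h1 : (n.choose s : ℝ) ≤ (e * (3 / 2) / x) ^ s := by
    refine (choose_exp n s hs).trans ?_
    apply pow_le_pow_left₀ (by positivity)
    rw [mul_div_assoc]
    apply mul_le_mul_of_nonneg_left _ he0.le
    rw [hx, div_div_eq_mul_div, div_le_div_iff₀ hs0 ht0]
    nlinarith
  have h2 : (n.choose t : ℝ) ≤ ((e / x) ^ 2) ^ s := by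
    refine (choose_exp n t ht1).trans ?_
    have h3 : e * ((n:ℝ) / t) = e / x := by
      rw [hx]; field_simp
    rw [h3, ← pow_mul]
    apply pow_le_pow_right₀ _ ht3
    rw [one_le_div hx0]; linarith
  have hxm : x ^ m = x ^ 3 * x ^ (m - 3) := by
    rw [← pow_add]; congr 1; omega
  have hx20 : x ^ (m - 3) ≤ (3 / 4) ^ 20 := by
    calc x ^ (m - 3) ≤ (3 / 4) ^ (m - 3) := pow_le_pow_left₀ hx0.le hx1 _
      _ ≤ (3 / 4) ^ 20 := pow_le_pow_of_le_one (by norm_num) (by norm_num) (by omega)
  calc (n.choose s : ℝ) * n.choose t * x ^ (s * m)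
      ≤ (e * (3 / 2) / x) ^ s * ((e / x) ^ 2) ^ s * x ^ (s * m) := by
        apply mul_le_mul_of_nonneg_right _ (by positivity)
        exact mul_le_mul h1 h2 (by positivity) (by positivity)
    _ = ((e * (3 / 2) / x) * (e / x) ^ 2 * x ^ m) ^ s := by
        rw [mul_comm s m, pow_mul, ← mul_pow, ← mul_pow]
    _ = ((3 / 2) * e ^ 3 * x ^ (m - 3)) ^ s := by
        congr 1
        rw [hxm]
        field_simp
    _ ≤ (1 / 4) ^ s := by
        apply pow_le_pow_left₀ (by positivity)
        calc (3 / 2) * e ^ 3 * x ^ (m - 3) ≤ (3 / 2) * 21 * (3 / 4) ^ 20 := by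
              apply mul_le_mul _ hx20 (by positivity) (by norm_num)
              linarith
          _ ≤ 1 / 4 := by norm_num

lemma sum_quarter (k : ℕ) : ∑ s ∈ Finset.Icc 1 k, (1 / 4 : ℝ) ^ s ≤ 1 / 3 := by
  have : ∀ k : ℕ, ∑ s ∈ Finset.Icc 1 k, (1 / 4 : ℝ) ^ s = (1 - (1/4)^k) / 3 := by
    intro k
    induction k with
    | zero => simp
    | succ k ih =>
      rw [Finset.sum_Icc_succ_top (by omega), ih, pow_succ]; ring
  rw [this]
  have : (0:ℝ) ≤ (1/4)^k := by positivity
  linarith

lemma card_perm_tuples {n m : ℕ} (S T : Finset (Fin n)) :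
    (univ.filter (fun π : Fin m → Equiv.Perm (Fin n) => ∀ i, ∀ x ∈ S, π i x ∈ T)).card
      = (cST S T) ^ m := by
  have : (univ.filter (fun π : Fin m → Equiv.Perm (Fin n) => ∀ i, ∀ x ∈ S, π i x ∈ T))
      = Fintype.piFinset (fun _ : Fin m =>
        univ.filter (fun π : Equiv.Perm (Fin n) => ∀ x ∈ S, π x ∈ T)) := by
    ext π
    simp [Fintype.mem_piFinset]
  rw [this, Fintype.card_piFinset]
  simp [cST]

lemma exists_perms (n m : ℕ) (hm : 23 ≤ m) : ∃ π : Fin m → Equiv.Perm (Fin n),
    ∀ S : Finset (Fin n), S.Nonempty → 2 * S.card ≤ n →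
      3 * S.card < 2 * (univ.biUnion (fun i => S.map (π i).toEmbedding)).card := by
  by_contra hcon
  push Not at hcon
  set F : ℕ → ℝ := fun s => if 1 ≤ s ∧ 2 * s ≤ n then
    (n.choose (3 * s / 2) : ℝ) * (((3 * s / 2 : ℕ) : ℝ) / n) ^ (s * m) else 0 with hF
  -- every tuple is bad
  have hbad : ∀ π : Fin m → Equiv.Perm (Fin n), ∃ S T : Finset (Fin n), (1 ≤ S.card ∧ 2 * S.card ≤ n)
      ∧ T.card = 3 * S.card / 2 ∧ ∀ i, ∀ x ∈ S, π i x ∈ T := by
    intro π
    obtain ⟨S, hS, hSn, hS2⟩ := hcon π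
    have h1 : (univ.biUnion (fun i => S.map (π i).toEmbedding)).card ≤ 3 * S.card / 2 := by omega
    have h2 : 3 * S.card / 2 ≤ (univ : Finset (Fin n)).card := by
      rw [card_univ, Fintype.card_fin]; omega
    obtain ⟨T, hT1, _, hT3⟩ := exists_subsuperset_card_eq
      (subset_univ (univ.biUnion (fun i => S.map (π i).toEmbedding))) h1 h2
    refine ⟨S, T, ⟨Finset.card_pos.2 hS, hSn⟩, hT3, ?_⟩
    intro i x hx
    apply hT1
    rw [mem_biUnion]
    exact ⟨i, mem_univ _, mem_map.2 ⟨x, hx, rfl⟩⟩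
  have hcount : ((n.factorial : ℝ)) ^ m ≤ ∑ S ∈ (univ : Finset (Fin n)).powerset,
      (n.factorial : ℝ) ^ m * F S.card := by
    have h1 : ((n.factorial : ℝ)) ^ m = ∑ π : Fin m → Equiv.Perm (Fin n), (1:ℝ) := by
      rw [sum_const, card_univ, Fintype.card_fun, Fintype.card_perm, Fintype.card_fin,
        Fintype.card_fin]
      simp
    have h2 : ∀ π ∈ (univ : Finset (Fin m → Equiv.Perm (Fin n))), (1:ℝ) ≤
        ∑ S ∈ (univ : Finset (Fin n)).powerset, ∑ T ∈ powersetCard (3 * S.card / 2) univ,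
          (if (1 ≤ S.card ∧ 2 * S.card ≤ n) ∧ ∀ i, ∀ x ∈ S, π i x ∈ T then (1:ℝ) else 0) := by
      intro π _
      obtain ⟨S, T, hS, hT, hST⟩ := hbad π
      have h3 : (1:ℝ) ≤ ∑ T ∈ powersetCard (3 * S.card / 2) univ,
          (if (1 ≤ S.card ∧ 2 * S.card ≤ n) ∧ ∀ i, ∀ x ∈ S, π i x ∈ T then (1:ℝ) else 0) := by
        have h4 : T ∈ powersetCard (3 * S.card / 2) (univ : Finset (Fin n)) := by
          rw [mem_powersetCard]; exact ⟨subset_univ _, hT⟩
        refine le_trans ?_ (single_le_sum (f := fun T =>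
          (if (1 ≤ S.card ∧ 2 * S.card ≤ n) ∧ ∀ i, ∀ x ∈ S, π i x ∈ T then (1:ℝ) else 0)) ?_ h4)
        · rw [if_pos ⟨hS, hST⟩]
        · intro T' _
          split_ifs <;> norm_num
      refine h3.trans (single_le_sum (f := fun S => ∑ T ∈ powersetCard (3 * S.card / 2) univ,
          (if (1 ≤ S.card ∧ 2 * S.card ≤ n) ∧ ∀ i, ∀ x ∈ S, π i x ∈ T then (1:ℝ) else 0)) ?_
            (mem_powerset.2 (subset_univ S)))
      intro S' _
      apply sum_nonneg
      intro T' _
      split_ifs <;> norm_num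
    refine h1.le.trans ((sum_le_sum h2).trans ?_)
    rw [sum_comm]
    apply sum_le_sum
    intro S _
    rw [sum_comm]
    by_cases hS : 1 ≤ S.card ∧ 2 * S.card ≤ n
    · simp only [hS, true_and]
      have hn0 : (0:ℝ) < n := by
        have : 0 < n := by omega
        exact_mod_cast this
      have h5 : ∀ T ∈ powersetCard (3 * S.card / 2) (univ : Finset (Fin n)),
          ∑ π : Fin m → Equiv.Perm (Fin n), (if ∀ i, ∀ x ∈ S, π i x ∈ T then (1:ℝ) else 0)
            ≤ (n.factorial : ℝ) ^ m * (((3 * S.card / 2 : ℕ) : ℝ) / n) ^ (S.card * m) := by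
        intro T hT
        rw [mem_powersetCard] at hT
        rw [← sum_filter, sum_const, nsmul_eq_mul, mul_one, card_perm_tuples]
        have h6 := cST_bound S T
        rw [hT.2] at h6
        have h7 : (cST S T : ℝ) * (n:ℝ) ^ S.card
            ≤ (n.factorial : ℝ) * ((3 * S.card / 2 : ℕ) : ℝ) ^ S.card := by exact_mod_cast h6
        have h8 : (cST S T : ℝ) ≤ (n.factorial : ℝ) * (((3 * S.card / 2 : ℕ) : ℝ) / n) ^ S.card := by
          rw [div_pow, ← mul_div_assoc, le_div_iff₀ (by positivity)]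
          exact h7
        push_cast
        calc (cST S T : ℝ) ^ m ≤ ((n.factorial : ℝ) * (((3 * S.card / 2 : ℕ) : ℝ) / n) ^ S.card) ^ m :=
              pow_le_pow_left₀ (by positivity) h8 m
          _ = _ := by rw [mul_pow, ← pow_mul]
      refine (sum_le_sum h5).trans ?_
      rw [sum_const, card_powersetCard, card_univ, Fintype.card_fin, nsmul_eq_mul, hF]
      simp only [hS, and_self, if_true]
      apply le_of_eq
      ring
    · simp only [hS, false_and, if_false, sum_const_zero, hF]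
      simp
  have hsum : ∑ S ∈ (univ : Finset (Fin n)).powerset, (n.factorial : ℝ) ^ m * F S.card
      ≤ (n.factorial : ℝ) ^ m * (1 / 3) := by
    rw [← mul_sum, sum_powerset_apply_card]
    apply mul_le_mul_of_nonneg_left _ (by positivity)
    rw [card_univ, Fintype.card_fin]
    have h1 : ∑ s ∈ range (n + 1), n.choose s • F s ≤ ∑ s ∈ Icc 1 n, (1/4 : ℝ) ^ s := by
      have h2 : ∑ s ∈ range (n + 1), n.choose s • F s = ∑ s ∈ Icc 1 n, n.choose s • F s := by
        symm
        apply sum_subset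
        · intro s hs
          rw [mem_Icc] at hs
          rw [mem_range]; omega
        · intro s hs hs'
          rw [mem_range] at hs
          rw [mem_Icc] at hs'
          have : s = 0 := by omega
          subst this
          simp [hF]
      rw [h2]
      apply sum_le_sum
      intro s hs
      rw [mem_Icc] at hs
      rw [hF, nsmul_eq_mul]
      by_cases h3 : 2 * s ≤ n
      · simp only [hs.1, h3, and_self, if_true]
        rw [← mul_assoc]
        exact term_bound n s (3 * s / 2) m hs.1 rfl h3 hm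
      · simp only [h3, and_false, if_false, mul_zero]
        positivity
    exact h1.trans (sum_quarter n)
  have hpos : (0:ℝ) < (n.factorial : ℝ) ^ m := by
    have : (0:ℝ) < n.factorial := by exact_mod_cast n.factorial_pos
    positivity
  linarith [hcount.trans hsum]

/-! ### The graph -/

/-- The vertex type. -/
abbrev VV (n m : ℕ) : Type := (Fin n × Fin m × Bool) × Bool

/-- Adjacency before doubling. -/
def baseAdj {n m : ℕ} (π : Fin m → Equiv.Perm (Fin n)) (x y : Fin n × Fin m × Bool) : Prop :=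
  (x.1 = y.1 ∧ x.2.1 ≠ y.2.1) ∨
  (x.2.1 = y.2.1 ∧ x.2.2 = false ∧ y.2.2 = true ∧ y.1 = π x.2.1 x.1) ∨
  (x.2.1 = y.2.1 ∧ x.2.2 = true ∧ y.2.2 = false ∧ x.1 = π x.2.1 y.1)

/-- The doubled graph. -/
def GG {n m : ℕ} (π : Fin m → Equiv.Perm (Fin n)) : SimpleGraph (VV n m) where
  Adj x y := (x.1 = y.1 ∧ x.2 ≠ y.2) ∨ baseAdj π x.1 y.1
  symm := by
    constructor
    intro x y h
    rcases h with ⟨h1, h2⟩ | h
    · exact Or.inl ⟨h1.symm, h2.symm⟩
    · right
      rcases h with ⟨h1, h2⟩ | ⟨h1, h2, h3, h4⟩ | ⟨h1, h2, h3, h4⟩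
      · exact Or.inl ⟨h1.symm, h2.symm⟩
      · exact Or.inr (Or.inr ⟨h1.symm, h3, h2, by rw [← h1]; exact h4⟩)
      · exact Or.inr (Or.inl ⟨h1.symm, h3, h2, by rw [← h1]; exact h4⟩)
  loopless := by
    constructor
    intro x h
    rcases h with ⟨h1, h2⟩ | h
    · exact h2 rfl
    · rcases h with ⟨h1, h2⟩ | ⟨h1, h2, h3, h4⟩ | ⟨h1, h2, h3, h4⟩
      · exact h2 rfl
      · rw [h2] at h3; exact Bool.noConfusion h3
      · rw [h2] at h3; exact Bool.noConfusion h3

lemma GG_adj {n m : ℕ} (π : Fin m → Equiv.Perm (Fin n)) (x y : VV n m) :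
    (GG π).Adj x y ↔ ((x.1 = y.1 ∧ x.2 ≠ y.2) ∨ baseAdj π x.1 y.1) := Iff.rfl

/-- The matched vertex. -/
def mate {n m : ℕ} (π : Fin m → Equiv.Perm (Fin n)) (x : Fin n × Fin m × Bool) : Fin n :=
  if x.2.2 = false then π x.2.1 x.1 else (π x.2.1).symm x.1

lemma GG_degree {n m : ℕ} (π : Fin m → Equiv.Perm (Fin n)) (x : VV n m) :
    ((GG π).neighborSet x).ncard = 4 * m - 1 := by
  classical
  obtain ⟨⟨v, i, s⟩, c⟩ := x
  set A : Finset (VV n m) := {((v, i, s), !c)} with hA
  set B : Finset (VV n m) := ((univ.erase i) ×ˢ (univ : Finset (Bool × Bool))).image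
    (fun q => ((v, q.1, q.2.1), q.2.2)) with hB
  set C : Finset (VV n m) := (univ : Finset Bool).image
    (fun c' => ((mate π (v, i, s), i, !s), c')) with hC
  have hset : (GG π).neighborSet ((v, i, s), c) = ((A ∪ B ∪ C : Finset (VV n m)) : Set (VV n m)) := by
    ext ⟨⟨w, j, t⟩, c'⟩
    simp only [SimpleGraph.mem_neighborSet, GG_adj, coe_union, Set.mem_union, mem_coe]
    simp only [hA, hB, hC, mem_singleton, mem_image, mem_product, mem_erase, mem_univ, and_true,
      true_and, Prod.mk.injEq, Prod.exists, baseAdj, mate]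
    constructor
    · rintro (⟨⟨rfl, rfl, rfl⟩, h2⟩ | ⟨rfl, h2⟩ | ⟨rfl, h2, h3, h4⟩ | ⟨rfl, h2, h3, h4⟩)
      · left; left
        refine ⟨⟨rfl, rfl, rfl⟩, ?_⟩
        revert h2; cases c <;> cases c' <;> simp
      · left; right
        exact ⟨j, t, c', h2.symm, ⟨rfl, rfl, rfl⟩, rfl⟩
      · right
        subst h2 h3
        exact ⟨c', ⟨by simp [h4], rfl, rfl⟩, rfl⟩
      · right
        subst h2 h3
        exact ⟨c', ⟨by simp [h4], rfl, rfl⟩, rfl⟩
    · rintro ((⟨⟨rfl, rfl, rfl⟩, h2⟩ | ⟨j', t', c'', h1, ⟨rfl, rfl, rfl⟩, rfl⟩) |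
        ⟨c'', ⟨h1, rfl, rfl⟩, rfl⟩)
      · left
        refine ⟨⟨rfl, rfl, rfl⟩, ?_⟩
        rw [h2]; cases c <;> simp
      · right; left
        exact ⟨rfl, fun h => h1 h.symm⟩
      · right; right
        cases s
        · left
          refine ⟨rfl, rfl, rfl, ?_⟩
          rw [← h1]; simp
        · right
          refine ⟨rfl, rfl, rfl, ?_⟩
          rw [← h1]; simp
  rw [hset, Set.ncard_coe_finset]
  have hAB : Disjoint A B := by
    rw [Finset.disjoint_left]
    intro y hy hy'
    rw [hA, mem_singleton] at hy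
    rw [hB, mem_image] at hy'
    obtain ⟨q, hq, hq'⟩ := hy'
    rw [hy] at hq'
    simp only [Prod.mk.injEq] at hq'
    rw [mem_product, mem_erase] at hq
    exact hq.1.1 hq'.1.2.1
  have hABC : Disjoint (A ∪ B) C := by
    rw [Finset.disjoint_left]
    intro y hy hy'
    rw [hC, mem_image] at hy'
    obtain ⟨c', _, hc'⟩ := hy'
    rw [mem_union] at hy
    rcases hy with hy | hy
    · rw [hA, mem_singleton] at hy
      rw [hy] at hc'
      simp only [Prod.mk.injEq] at hc'
      have := hc'.1.2.2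
      revert this; cases s <;> simp
    · rw [hB, mem_image] at hy
      obtain ⟨q, hq, hq'⟩ := hy
      rw [← hc'] at hq'
      simp only [Prod.mk.injEq] at hq'
      rw [mem_product, mem_erase] at hq
      exact hq.1.1 hq'.1.2.1
  rw [card_union_of_disjoint hABC, card_union_of_disjoint hAB]
  have cA : A.card = 1 := by rw [hA, card_singleton]
  have cB : B.card = (m - 1) * 4 := by
    rw [hB, card_image_of_injective, card_product, card_erase_of_mem (mem_univ _)]
    · simp
    · rintro ⟨a1, a2, a3⟩ ⟨b1, b2, b3⟩ h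
      simp only [Prod.mk.injEq] at h
      obtain ⟨⟨_, h1, h2⟩, h3⟩ := h
      rw [h1, h2, h3]
  have cC : C.card = 2 := by
    rw [hC, card_image_of_injective]
    · simp
    · intro a b h
      simp only [Prod.mk.injEq] at h
      exact h.2
  rw [cA, cB, cC]
  have : 0 < m := i.pos
  omega

lemma GG_expansion {n m : ℕ} (hm : 2 ≤ m) (π : Fin m → Equiv.Perm (Fin n))
    (hπ : ∀ S : Finset (Fin n), S.Nonempty → 2 * S.card ≤ n →
      3 * S.card < 2 * (univ.biUnion (fun i => S.map (π i).toEmbedding)).card)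
    (A : Finset (VV n m)) (hA2 : 2 * A.card ≤ Fintype.card (VV n m)) :
    A.card ≤ 12 * m * (edgeBoundary (GG π) A).ncard := by
  classical
  have hcardV : Fintype.card (VV n m) = n * (m * 2) * 2 := by simp [VV]
  have i0 : Fin m := ⟨0, by omega⟩
  -- the set of boundary clouds
  set X : Finset (Fin n) := univ.filter (fun w => ∃ a b : VV n m, a ∈ A ∧ b ∉ A ∧
    (GG π).Adj a b ∧ b.1.1 = w) with hX
  have hXb : X.card ≤ (edgeBoundary (GG π) A).ncard := by
    have hch : ∀ w ∈ X, ∃ e : VV n m × VV n m, e.1 ∈ A ∧ e.2 ∉ A ∧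
        (GG π).Adj e.1 e.2 ∧ e.2.1.1 = w := by
      intro w hw
      rw [hX, mem_filter] at hw
      obtain ⟨_, a, b, h⟩ := hw
      exact ⟨(a, b), h⟩
    have hne : Nonempty (VV n m × VV n m) ∨ IsEmpty (Fin n) := by
      rcases isEmpty_or_nonempty (Fin n) with h | ⟨⟨v⟩⟩
      · exact Or.inr h
      · exact Or.inl ⟨(((v, i0, false), false), ((v, i0, false), false))⟩
    rcases hne with hne | hem
    swap
    · rw [Finset.eq_empty_of_isEmpty X]; simp
    choose! e he using hch
    rw [← Set.ncard_coe_finset X]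
    apply Set.ncard_le_ncard_of_injOn (fun w => s((e w).1, (e w).2))
    · intro w hw
      have h := he w hw
      exact ⟨h.2.2.1, _, h.1, _, h.2.1, rfl⟩
    · intro w hw w' hw' hww
      have h := he w hw
      have h' := he w' hw'
      simp only [Sym2.eq_iff] at hww
      rcases hww with ⟨_, h2⟩ | ⟨h1, h2⟩
      · rw [← h.2.2.2, ← h'.2.2.2, h2]
      · exfalso
        apply h.2.1
        rw [h2]; exact h'.1
  -- full clouds
  set F : Finset (Fin n) := univ.filter (fun w => ∀ y : VV n m, y.1.1 = w → y ∈ A) with hF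
  have hmemF : ∀ w, w ∈ F ↔ ∀ y : VV n m, y.1.1 = w → y ∈ A := by
    intro w; rw [hF, mem_filter]; simp
  -- partial clouds are in X
  have hpart : ∀ a b : VV n m, a ∈ A → b ∉ A → a.1.1 = b.1.1 → b.1.1 ∈ X := by
    intro a b ha hb hab
    rw [hX, mem_filter]
    refine ⟨mem_univ _, ?_⟩
    by_cases hij : a.1.2.1 = b.1.2.1
    · -- pick another port
      obtain ⟨j, hj⟩ : ∃ j : Fin m, j ≠ a.1.2.1 := by
        have : Nontrivial (Fin m) := Fin.nontrivial_iff_two_le.2 hm
        exact exists_ne _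
      by_cases hz : (((a.1.1, j, false), false) : VV n m) ∈ A
      · refine ⟨((a.1.1, j, false), false), b, hz, hb, ?_, rfl⟩
        rw [GG_adj]
        right; left
        exact ⟨hab, fun h => hj (h.trans hij.symm)⟩
      · refine ⟨a, ((a.1.1, j, false), false), ha, hz, ?_, hab⟩
        rw [GG_adj]
        right; left
        exact ⟨rfl, fun h => hj h.symm⟩
    · refine ⟨a, b, ha, hb, ?_, rfl⟩
      rw [GG_adj]
      right; left
      exact ⟨hab, hij⟩
  -- A is covered by the clouds in F ∪ X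
  have hcover : A ⊆ ((F ∪ X) ×ˢ (univ : Finset (Fin m × Bool))).image
      (fun q => q) ×ˢ (univ : Finset Bool) := by
    intro a ha
    simp only [mem_product, mem_image, mem_univ, and_true]
    refine ⟨a.1, ?_, rfl⟩
    by_cases hf : a.1.1 ∈ F
    · exact mem_union_left _ hf
    · rw [hmemF] at hf
      push Not at hf
      obtain ⟨b, hb1, hb2⟩ := hf
      have := hpart a b ha hb2 hb1.symm
      rw [hb1] at this
      exact mem_union_right _ this
  have hAcard : A.card ≤ (F.card + X.card) * (4 * m) := by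
    refine (card_le_card hcover).trans ?_
    rw [image_id', card_product, card_product]
    simp only [card_univ, Fintype.card_prod, Fintype.card_fin, Fintype.card_bool]
    have := card_union_le F X
    nlinarith
  have hFA : F.card * (4 * m) ≤ A.card := by
    have h1 : (F ×ˢ (univ : Finset (Fin m × Bool))) ×ˢ (univ : Finset Bool) ⊆ A := by
      intro y hy
      simp only [mem_product, mem_univ, and_true] at hy
      exact (hmemF _).1 hy y rfl
    have h2 := card_le_card h1
    rw [card_product, card_product] at h2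
    simp only [card_univ, Fintype.card_prod, Fintype.card_fin, Fintype.card_bool] at h2
    nlinarith
  have hF2 : F.card ≤ 2 * X.card := by
    rcases F.eq_empty_or_nonempty with hF0 | hF0
    · rw [hF0]; simp
    · have hFn : 2 * F.card ≤ n := by
        have h1 : 2 * (F.card * (4 * m)) ≤ n * (m * 2) * 2 := by
          rw [← hcardV]; omega
        have h2 : (2 * F.card) * (4 * m) ≤ n * (4 * m) := by nlinarith
        exact Nat.le_of_mul_le_mul_right h2 (by omega)
      have h3 := hπ F hF0 hFn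
      have h4 : (univ.biUnion (fun i => F.map (π i).toEmbedding)) ⊆ F ∪ X := by
        intro w hw
        rw [mem_biUnion] at hw
        obtain ⟨i, _, hi⟩ := hw
        rw [mem_map] at hi
        obtain ⟨v, hv, hvw⟩ := hi
        have hvw' : π i v = w := hvw
        by_cases hwF : w ∈ F
        · exact mem_union_left _ hwF
        · apply mem_union_right
          by_cases hb : (((w, i, true), false) : VV n m) ∈ A
          · rw [hmemF] at hwF
            push Not at hwF
            obtain ⟨b, hb1, hb2⟩ := hwF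
            have := hpart _ b hb hb2 hb1.symm
            rw [hb1] at this
            exact this
          · rw [hX, mem_filter]
            refine ⟨mem_univ _, ((v, i, false), false), ((w, i, true), false), ?_, hb, ?_, rfl⟩
            · exact (hmemF v).1 hv _ rfl
            · rw [GG_adj]
              right; right; left
              exact ⟨rfl, rfl, rfl, hvw'.symm⟩
      have h5 := (card_le_card h4).trans (card_union_le F X)
      omega
  calc A.card ≤ (F.card + X.card) * (4 * m) := hAcard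
    _ ≤ (2 * X.card + X.card) * (4 * m) := Nat.mul_le_mul_right _ (by omega)
    _ = 12 * m * X.card := by ring
    _ ≤ _ := Nat.mul_le_mul_left _ hXb

lemma GG_connected {n m : ℕ} (hn : 1 ≤ n) (hm : 2 ≤ m) (π : Fin m → Equiv.Perm (Fin n))
    (hπ : ∀ S : Finset (Fin n), S.Nonempty → 2 * S.card ≤ n →
      3 * S.card < 2 * (univ.biUnion (fun i => S.map (π i).toEmbedding)).card) :
    (GG π).Connected := by
  classical
  have hne : Nonempty (VV n m) := ⟨((⟨0, hn⟩, ⟨0, by omega⟩, false), false)⟩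
  refine ⟨?_⟩
  intro x y
  by_contra hxy
  set S : Finset (VV n m) := univ.filter (fun z => (GG π).Reachable x z) with hS
  have hbd : edgeBoundary (GG π) S = ∅ := by
    ext e
    simp only [edgeBoundary, Set.mem_ofPred_eq, Set.mem_empty_iff_false, iff_false, not_and,
      not_exists]
    rintro he u hu v hv rfl
    rw [hS, mem_filter] at hu hv
    apply hv
    exact ⟨mem_univ _, hu.2.trans (SimpleGraph.Adj.reachable he)⟩
  have hbd' : edgeBoundary (GG π) Sᶜ = ∅ := by
    ext e
    simp only [edgeBoundary, Set.mem_ofPred_eq, Set.mem_empty_iff_false, iff_false, not_and,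
      not_exists]
    rintro he u hu v hv rfl
    rw [mem_compl, hS, mem_filter] at hu hv
    push Not at hu hv
    apply hu (mem_univ _)
    exact hv.2.trans (SimpleGraph.Adj.reachable he).symm
  have h1 : 1 ≤ S.card := by
    rw [Nat.one_le_iff_ne_zero, Finset.card_ne_zero]
    exact ⟨x, by rw [hS, mem_filter]; exact ⟨mem_univ _, SimpleGraph.Reachable.refl x⟩⟩
  have h2 : 1 ≤ Sᶜ.card := by
    rw [Nat.one_le_iff_ne_zero, Finset.card_ne_zero]
    exact ⟨y, by rw [mem_compl, hS, mem_filter]; exact fun h => hxy h.2⟩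
  have h3 : S.card + Sᶜ.card = Fintype.card (VV n m) := by
    rw [card_add_card_compl]
  rcases le_total S.card Sᶜ.card with h | h
  · have := GG_expansion hm π hπ S (by omega)
    rw [hbd] at this
    simp at this
    rw [this] at h1
    simp at h1
  · have := GG_expansion hm π hπ Sᶜ (by omega)
    rw [hbd', Set.ncard_empty, mul_zero] at this
    omega

/-! ### Non-movability -/

lemma two_circles (z₁ z₂ : ℂ) (h : z₁ ≠ z₂) (r₁ r₂ : ℝ) :
    {z : ℂ | ‖z₁ - z‖ = r₁ ∧ ‖z₂ - z‖ = r₂}.Finite := by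
  by_cases hex : ∃ p₁ p₂ : ℂ, p₁ ≠ p₂ ∧ (‖z₁ - p₁‖ = r₁ ∧ ‖z₂ - p₁‖ = r₂) ∧
      (‖z₁ - p₂‖ = r₁ ∧ ‖z₂ - p₂‖ = r₂)
  · obtain ⟨p₁, p₂, hp, h1, h2⟩ := hex
    apply Set.Finite.subset (Set.toFinite {p₁, p₂})
    intro z hz
    have := EuclideanGeometry.eq_of_dist_eq_of_dist_eq_of_finrank_eq_two (V := ℂ) (P := ℂ)
      Complex.finrank_real_complex h hp (r₁ := r₁) (r₂ := r₂) (p := z)
      (by rw [dist_comm, dist_eq_norm]; exact h1.1) (by rw [dist_comm, dist_eq_norm]; exact h2.1)
      (by rw [dist_comm, dist_eq_norm]; exact hz.1) (by rw [dist_comm, dist_eq_norm]; exact h1.2)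
      (by rw [dist_comm, dist_eq_norm]; exact h2.2) (by rw [dist_comm, dist_eq_norm]; exact hz.2)
    exact this
  · push Not at hex
    apply Set.Subsingleton.finite
    intro a ha b hb
    by_contra hab
    exact hex a b hab ha hb.1 hb.2

lemma third_point {V : Type} {R : Set (V → ℂ)} {lam : Sym2 V → ℝ} {G : SimpleGraph V}
    (hR : ∀ ρ ∈ R, ∀ u v, G.Adj u v → ‖ρ u - ρ v‖ = lam s(u, v))
    (hlam : ∀ e ∈ G.edgeSet, 0 < lam e) (u v w : V) (huv : G.Adj u v) (huw : G.Adj u w)
    (hvw : G.Adj v w) (hu : ((fun ρ : V → ℂ => ρ u) '' R).Finite)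
    (hv : ((fun ρ : V → ℂ => ρ v) '' R).Finite) : ((fun ρ : V → ℂ => ρ w) '' R).Finite := by
  have hfin : (⋃ z ∈ ((fun ρ : V → ℂ => ρ u) '' R) ×ˢ ((fun ρ : V → ℂ => ρ v) '' R),
      {x : ℂ | z.1 ≠ z.2 ∧ ‖z.1 - x‖ = lam s(u, w) ∧ ‖z.2 - x‖ = lam s(v, w)}).Finite := by
    apply Set.Finite.biUnion (hu.prod hv)
    intro z _
    by_cases hz : z.1 = z.2
    · simp [hz]
    · apply (two_circles z.1 z.2 hz (lam s(u, w)) (lam s(v, w))).subset
      intro x hx
      exact hx.2
  apply hfin.subset
  rintro _ ⟨ρ, hρ, rfl⟩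
  simp only [Set.mem_iUnion]
  refine ⟨(ρ u, ρ v), ⟨⟨ρ, hρ, rfl⟩, ⟨ρ, hρ, rfl⟩⟩, ?_, hR ρ hρ u w huw, hR ρ hρ v w hvw⟩
  intro h
  have h1 := hR ρ hρ u v huv
  simp only [] at h
  rw [h, sub_self, norm_zero] at h1
  have := hlam s(u, v) huv
  linarith

lemma GG_not_movable {n m : ℕ} (π : Fin m → Equiv.Perm (Fin n)) (hc : (GG π).Connected) :
    ¬ Movable (GG π) := by
  rintro ⟨lam, hlam, hinf⟩
  apply hinf
  obtain ⟨x0⟩ := hc.nonempty
  obtain ⟨x0, c0⟩ := x0
  have adj0 : ∀ x : Fin n × Fin m × Bool, (GG π).Adj (x, false) (x, true) := by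
    intro x; rw [GG_adj]; left; simp
  set l0 : ℝ := lam s((x0, false), (x0, true)) with hl0
  have hl0pos : 0 < l0 := hlam _ (adj0 x0)
  -- normalised realisations
  set R : Set (VV n m → ℂ) := {ρ | (∀ u v, (GG π).Adj u v → ‖ρ u - ρ v‖ = lam s(u, v)) ∧
    ρ (x0, false) = 0 ∧ ρ (x0, true) = l0} with hR
  have hR1 : ∀ ρ ∈ R, ∀ u v, (GG π).Adj u v → ‖ρ u - ρ v‖ = lam s(u, v) := fun ρ hρ => hρ.1
  have key : ∀ x : Fin n × Fin m × Bool, ∀ y : Fin n × Fin m × Bool, (x = y ∨ baseAdj π x y) →
      (∀ c, ((fun ρ : VV n m → ℂ => ρ (x, c)) '' R).Finite) →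
      (∀ c, ((fun ρ : VV n m → ℂ => ρ (y, c)) '' R).Finite) := by
    intro x y hxy hx c
    rcases hxy with rfl | hxy
    · exact hx c
    · apply third_point hR1 hlam (x, false) (x, true) (y, c) (adj0 x) _ _ (hx false) (hx true)
      · rw [GG_adj]; right; exact hxy
      · rw [GG_adj]; right; exact hxy
  have base : ∀ c, ((fun ρ : VV n m → ℂ => ρ (x0, c)) '' R).Finite := by
    intro c
    cases c
    · apply (Set.toFinite {(0:ℂ)}).subset
      rintro _ ⟨ρ, hρ, rfl⟩
      exact hρ.2.1
    · apply (Set.toFinite {(l0:ℂ)}).subset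
      rintro _ ⟨ρ, hρ, rfl⟩
      exact hρ.2.2
  have hall : ∀ y : VV n m, (GG π).Reachable (x0, c0) y →
      ∀ c, ((fun ρ : VV n m → ℂ => ρ (y.1, c)) '' R).Finite := by
    intro y hy
    obtain ⟨p⟩ := hy
    have : ∀ (a b : VV n m) (p : (GG π).Walk a b),
      (∀ c, ((fun ρ : VV n m → ℂ => ρ (a.1, c)) '' R).Finite) →
      (∀ c, ((fun ρ : VV n m → ℂ => ρ (b.1, c)) '' R).Finite) := by
      intro a b p
      induction p with
      | nil => exact fun h => h
      | cons h p ih =>
        intro ha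
        apply ih
        apply key _ _ _ ha
        rw [GG_adj] at h
        rcases h with ⟨h1, _⟩ | h
        · exact Or.inl h1
        · exact Or.inr h
    exact this _ _ p base
  have hRfin : R.Finite := by
    have h1 : (Set.pi Set.univ (fun y : VV n m => (fun ρ : VV n m → ℂ => ρ y) '' R)).Finite := by
      apply Set.Finite.pi
      intro y
      exact hall y (hc.preconnected _ _) y.2
    apply h1.subset
    intro ρ hρ
    rw [Set.mem_pi]
    intro y _
    exact ⟨ρ, hρ, rfl⟩
  -- classes are classes of normalised realisations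
  apply (hRfin.image classOf).subset
  rintro _ ⟨ρ, ⟨hinj, hρ⟩, rfl⟩
  set w : ℂ := ρ (x0, true) - ρ (x0, false) with hw
  have hwn : ‖w‖ = l0 := by
    rw [hw, hρ _ _ (adj0 x0).symm, hl0, Sym2.eq_swap]
  have hw0 : w ≠ 0 := by
    intro h; rw [h, norm_zero] at hwn; linarith
  set a : ℂ := l0 / w with ha
  have han : ‖a‖ = 1 := by
    rw [ha, norm_div, hwn, Complex.norm_real, Real.norm_of_nonneg hl0pos.le]
    field_simp
  have ha0 : a ≠ 0 := by
    intro h; rw [h, norm_zero] at han; exact zero_ne_one han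
  refine ⟨fun v => a * ρ v + (- a * ρ (x0, false)), ⟨?_, ?_, ?_⟩, ?_⟩
  · intro u v huv
    have h1 : a * ρ u + (- a * ρ (x0, false)) - (a * ρ v + (- a * ρ (x0, false)))
        = a * (ρ u - ρ v) := by ring
    rw [h1, norm_mul, han, one_mul]
    exact hρ u v huv
  · ring
  · have h2 : a * ρ (x0, true) + (- a * ρ (x0, false)) = a * w := by rw [hw]; ring
    show a * ρ (x0, true) + (- a * ρ (x0, false)) = l0
    rw [h2, ha]
    field_simp
  · -- equality of classes
    ext ρ'
    constructor
    · rintro ⟨a', b', ha', h⟩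
      refine ⟨a' * a, a' * (- a * ρ (x0, false)) + b', by rw [norm_mul, ha', han, one_mul], ?_⟩
      intro v
      rw [h v]; ring
    · rintro ⟨a', b', ha', h⟩
      refine ⟨a' / a, a' * ρ (x0, false) + b', by rw [norm_div, ha', han, one_div_one], ?_⟩
      intro v
      rw [h v]
      field_simp
      ring

/-- For arbitrarily large `d` there is a constant degree `d` expander sequence none of whose
members is movable. -/
theorem result : ∀ d₀ : ℕ, ∃ d : ℕ, d₀ ≤ d ∧ 3 ≤ d ∧
    ∃ (V : ℕ → Type) (_ : ∀ n, Fintype (V n)) (G : ∀ n, SimpleGraph (V n)),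
      IsExpanderSeq d V G ∧ ∀ n, ¬ Movable (G n) := by
  intro d₀
  set m : ℕ := 23 + d₀ with hm
  have hπ := fun n : ℕ => exists_perms (n + 1) m (by omega)
  choose π hπ using hπ
  refine ⟨4 * m - 1, by omega, by omega, fun n => VV (n + 1) m, inferInstance,
    fun n => GG (π n), ?_, ?_⟩
  · refine ⟨?_, ?_, ?_, ?_⟩
    · intro n
      exact GG_connected (by omega) (by omega) (π n) (hπ n)
    · intro n v
      exact GG_degree (π n) v
    · rw [Filter.tendsto_atTop]
      intro b
      filter_upwards [Filter.eventually_ge_atTop b] with n hn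
      simp only [VV, Fintype.card_prod, Fintype.card_fin, Fintype.card_bool]
      have : 1 ≤ m := by omega
      nlinarith
    · have hm0 : (0:ℝ) < 12 * m := by
        have : (0:ℝ) < m := by
          have : 0 < m := by omega
          exact_mod_cast this
        positivity
      refine ⟨1 / (12 * m), by positivity, ?_⟩
      intro n S _ hS
      have h1 := GG_expansion (by omega) (π n) (hπ n) S (by convert hS)
      have h2 : (S.card : ℝ) ≤ 12 * m * ((edgeBoundary (GG (π n)) S).ncard : ℝ) := by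
        exact_mod_cast h1
      rw [div_mul_eq_mul_div, one_mul, div_le_iff₀ hm0]
      linarith
  · intro n
    exact GG_not_movable (π n) (GG_connected (by omega) (by omega) (π n) (hπ n))

end Pool.Agent.Results.MP_e534f3_co.NonMovableExpanders
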